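import Pool.Agent.H218.ZW.Own
import Pool.Agent.V11015.FS.Several

/-!
# Finite-state prediction of the digits of several numbers with a simultaneous measure
-/

set_option autoImplicit false

namespace Pool.Agent.H218.ZW

open Finset Pool.Agent

/-- the `i`-th digit of `x` after the point in base `b` -/
noncomputable def dig (b : ℕ) (x : ℝ) (i : ℕ) : ℤ := ⌊x * (b : ℝ) ^ i⌋ % (b : ℤ)

/-- A machine with the set of states `Q`: the transition function, the guess announced in each
state, and the initial state. -/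
structure Machine (Q : Type) where
  next : Q → ℤ → Q
  guess : Q → ℤ
  start : Q

/-- The state of the machine after it has read the first `i` digits of `x` in base `b`. -/
noncomputable def Machine.state {Q : Type} (M : Machine Q) (b : ℕ) (x : ℝ) : ℕ → Q
  | 0 => M.start
  | i + 1 => M.next (M.state b x i) (dig b x (i + 1))

/-- The number of the wrong guesses for the first `n` digits of `x` in base `b`: the guess for the
digit number `i + 1` is announced when the machine has read the first `i` digits. -/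
noncomputable def Machine.errors {Q : Type} (M : Machine Q) (b : ℕ) (x : ℝ) (n : ℕ) : ℕ :=
  ((range n).filter (fun i => M.guess (M.state b x i) ≠ dig b x (i + 1))).card

theorem state_eq {Q : Type} (M : Machine Q) (b : ℕ) (x : ℝ) (i : ℕ) :
    M.state b x i = V60.FSP.st M.next (V60.FSP.dg b x) M.start 0 i := by
  induction i with
  | zero => rfl
  | succ i ih =>
    rw [V60.FSP.st_step, ← ih, Nat.zero_add]
    rfl

theorem errors_eq {Q : Type} [Fintype Q] (M : Machine Q) (b : ℕ) (x : ℝ) (n : ℕ) :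
    M.errors b x n = V60.FSP.err M.next M.guess (V60.FSP.dg b x) M.start 0 n := by
  unfold Machine.errors V60.FSP.err
  congr 1
  apply Finset.filter_congr
  intro i _
  rw [state_eq, Nat.zero_add]
  rfl

/-- **Finite-state prediction.** -/
theorem predict (A : Finset ℕ) (hA : A.Nonempty) (z : ℕ → ℝ) (E : ℕ) (c : ℝ) (hc : 0 < c)
    (h : Meas A z E c) (m : ℕ) (hm : m = A.card * E) (hm1 : 1 < m) :
    ∃ C : ℝ, ∀ (b : ℕ → ℕ) (Q : ℕ → Type) [∀ j, Fintype (Q j)] (M : ∀ j, Machine (Q j)) (N : ℕ → ℕ)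
      (t : ℝ), (∀ j, 2 ≤ b j) → 0 < t → (∀ j ∈ A, t ≤ N j * Real.log (b j)) →
      (Real.log t - Real.log (∑ j ∈ A, (Fintype.card (Q j) : ℝ) * Real.log (b j))) /
        Real.log m - C ≤ ((∑ j ∈ A, (M j).errors (b j) (z j) (N j) : ℕ) : ℝ) := by
  classical
  have : Nonempty A := hA.to_subtype
  obtain ⟨D, hD⟩ : ∃ D : ℝ, D = max (-Real.log c) 0 := ⟨_, rfl⟩
  have hD0 : 0 ≤ D := by rw [hD]; exact le_max_right _ _
  have hDc : Real.exp (-D) ≤ c := by
    calc Real.exp (-D) ≤ Real.exp (Real.log c) := by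
          apply Real.exp_le_exp.2
          have : -Real.log c ≤ D := by rw [hD]; exact le_max_left _ _
          linarith
      _ = c := Real.exp_log hc
  have hlog2 : 0 < Real.log 2 := Real.log_pos (by norm_num)
  have hmR : (1 : ℝ) < m := by exact_mod_cast hm1
  have hlm : 0 < Real.log m := Real.log_pos hmR
  refine ⟨Real.log (1 + D / Real.log 2) / Real.log m +
    (1 + Real.log (((E : ℝ) + 2) / (m - 1)) / Real.log m), ?_⟩
  intro b Q _ M N t hb ht hN
  have hcard : (Fintype.card A : ℝ) * (E : ℝ) = m := by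
    rw [Fintype.card_coe, hm]; push_cast; ring
  have hJ : V11015.FS.Joint (fun i : A => z i) (E : ℝ) D := by
    intro q p hq
    obtain ⟨Mq, hMq⟩ : ∃ Mq : ℕ → ℕ, Mq = fun j => if hj : j ∈ A then q ⟨j, hj⟩ else 1 := ⟨_, rfl⟩
    obtain ⟨P, hP⟩ : ∃ P : ℕ → ℤ, P = fun j => if hj : j ∈ A then p ⟨j, hj⟩ else 0 := ⟨_, rfl⟩
    have hMpos : ∀ j, 0 < Mq j := by
      intro j
      rw [hMq]
      by_cases hj : j ∈ A
      · simp only [hj, dif_pos]
        exact hq ⟨j, hj⟩
      · simp only [hj, dif_neg, not_false_iff]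
        exact one_pos
    obtain ⟨j, hj, h1⟩ := h.own Mq P hMpos
    refine ⟨⟨j, hj⟩, ?_⟩
    have e1 : (Mq j : ℝ) = q ⟨j, hj⟩ := by rw [hMq]; simp only [hj, dif_pos]
    have e2 : (P j : ℝ) = p ⟨j, hj⟩ := by rw [hP]; simp only [hj, dif_pos]
    rw [e1, e2] at h1
    refine le_trans ?_ h1
    have e3 : (∏ i ∈ A, (Mq i : ℝ)) = ∏ i : A, (q i : ℝ) := by
      rw [← Finset.prod_coe_sort]
      refine Finset.prod_congr rfl fun i _ => ?_
      rw [hMq]
      simp only [i.2, dif_pos]
    rw [e3]
    have e4 : ∏ i : A, (q i : ℝ) ^ (-(E : ℝ)) = ((∏ i : A, (q i : ℝ)) ^ E)⁻¹ := by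
      rw [← Finset.prod_pow, ← Finset.prod_inv_distrib]
      refine Finset.prod_congr rfl fun i _ => ?_
      rw [Real.rpow_neg (Nat.cast_nonneg _), Real.rpow_natCast]
    rw [e4, ← div_eq_mul_inv]
    have hq0 : 0 < (∏ i : A, (q i : ℝ)) ^ E := by
      apply pow_pos
      exact Finset.prod_pos fun i _ => by exact_mod_cast hq i
    exact div_le_div_of_nonneg_right hDc hq0.le
  have hmain := V11015.FS.main (ι := A) (fun i : A => z i) (fun i : A => b i) (Q := fun i : A => Q i)
    (fun i : A => (M i).next) (fun i : A => (M i).guess) (fun i : A => (M i).start)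
    (fun i => hb i) (κ := (E : ℝ)) (D := D) (Nat.cast_nonneg E) hD0 (by rw [hcard]; exact hmR) hJ
    (fun i : A => N i) ht (fun i => hN i i.2)
  rw [hcard] at hmain
  have hsiz : V11015.FS.siz (fun i : A => b i) (fun i : A => Q i) =
      ∑ j ∈ A, (Fintype.card (Q j) : ℝ) * Real.log (b j) := by
    unfold V11015.FS.siz
    rw [Finset.sum_coe_sort A (fun j => (Fintype.card (Q j) : ℝ) * Real.log (b j))]
  rw [hsiz] at hmain
  obtain ⟨S, hS⟩ : ∃ S : ℝ, S = ∑ j ∈ A, (Fintype.card (Q j) : ℝ) * Real.log (b j) := ⟨_, rfl⟩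
  rw [← hS] at hmain ⊢
  have hS2 : Real.log 2 ≤ S := by
    obtain ⟨j, hj⟩ := hA
    have h1 : (Fintype.card (Q j) : ℝ) * Real.log (b j) ≤ S := by
      rw [hS]
      exact Finset.single_le_sum
        (f := fun j => (Fintype.card (Q j) : ℝ) * Real.log (b j)) (fun i _ =>
          mul_nonneg (Nat.cast_nonneg _) (V11015.FS.log_base_pos (hb i)).le) hj
    have : Nonempty (Q j) := ⟨(M j).start⟩
    have h2 : (1 : ℝ) ≤ Fintype.card (Q j) := by exact_mod_cast Fintype.card_pos (α := Q j)
    have h3 : Real.log 2 ≤ Real.log (b j) := by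
      apply Real.log_le_log (by norm_num)
      exact_mod_cast hb j
    nlinarith
  have hSpos : 0 < S := hlog2.trans_le hS2
  have h5 : Real.log (D + S) ≤ Real.log S + Real.log (1 + D / Real.log 2) := by
    rw [← Real.log_mul hSpos.ne' (by positivity)]
    apply Real.log_le_log (by positivity)
    have h6 : D ≤ S * (D / Real.log 2) := by
      rw [mul_div_assoc', le_div_iff₀ hlog2]
      nlinarith
    linarith [mul_add S 1 (D / Real.log 2), mul_one S]
  have h7 : (∑ i : A, V60.FSP.err (M i).next (M i).guess (V60.FSP.dg (b i) (z i)) (M i).start 0 (N i))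
      = ∑ j ∈ A, (M j).errors (b j) (z j) (N j) := by
    rw [← Finset.sum_coe_sort A (fun j => (M j).errors (b j) (z j) (N j))]
    exact Finset.sum_congr rfl fun i _ => (errors_eq _ _ _ _).symm
  rw [← h7]
  refine le_trans ?_ hmain
  have h8 : Real.log (D + S) / Real.log m ≤
      (Real.log S + Real.log (1 + D / Real.log 2)) / Real.log m :=
    div_le_div_of_nonneg_right h5 hlm.le
  rw [add_div] at h8
  rw [sub_div, sub_div]
  linarith

end Pool.Agent.H218.ZW
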