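import Pool.Agent.H267.OZ.Poly

/-!
# Near relations of several numbers, each number with its own relations at its own scale
-/

set_option autoImplicit false

namespace Pool.Agent.H218.ZW

open Finset

/-- a simultaneous measure: rational numbers with the common denominator `q` do not approximate all
the numbers `z j`, `j ∈ A`, with an error below `c / q ^ E` -/
def Meas (A : Finset ℕ) (z : ℕ → ℝ) (E : ℕ) (c : ℝ) : Prop :=
  ∀ (a : ℕ → ℤ) (q : ℕ), 0 < q → ∃ j ∈ A, c / (q : ℝ) ^ E ≤ |z j - (a j : ℝ) / q|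

/-- own denominators -/
theorem Meas.own {A : Finset ℕ} {z : ℕ → ℝ} {E : ℕ} {c : ℝ} (h : Meas A z E c) (M : ℕ → ℕ)
    (P : ℕ → ℤ) (hM : ∀ j, 0 < M j) :
    ∃ j ∈ A, c / (∏ i ∈ A, (M i : ℝ)) ^ E ≤ |z j - (P j : ℝ) / M j| := by
  obtain ⟨j, hj, h1⟩ := h (fun j => P j * ∏ i ∈ A.erase j, (M i : ℤ)) (∏ i ∈ A, M i)
    (Finset.prod_pos fun i _ => hM i)
  refine ⟨j, hj, ?_⟩
  push_cast at h1
  have h2 : ((P j : ℝ) * ∏ i ∈ A.erase j, (M i : ℝ)) / ∏ i ∈ A, (M i : ℝ) = (P j : ℝ) / M j := by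
    rw [← Finset.mul_prod_erase A _ hj]
    have h3 : (∏ i ∈ A.erase j, (M i : ℝ)) ≠ 0 :=
      Finset.prod_ne_zero_iff.2 fun i _ => by have := hM i; positivity
    have h4 : (M j : ℝ) ≠ 0 := by have := hM j; positivity
    field_simp
  rw [h2] at h1
  exact h1

/-- **Near relations, each number with its own relations at its own scale.** -/
theorem own (A : Finset ℕ) (z : ℕ → ℝ) (E : ℕ) (hE : 1 ≤ E) (c : ℝ) (hc : 0 < c) (h : Meas A z E c)
    (r : ℕ → ℕ) :
    ∃ c' : ℝ, 0 < c' ∧ ∀ (t : ∀ j, Fin (r j) → ℝ) (X : ℕ → ℝ), (∀ j, 1 ≤ X j) →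
      ∀ (q : ∀ j, Fin (r j + 1) → ℤ) (e : ∀ j, Fin (r j + 1) → Fin (r j) → ℤ),
        (∀ j ∈ A, LinearIndependent ℤ (fun k => (q j k, e j k))) →
        (∀ j ∈ A, ∀ k, |(q j k : ℝ)| ≤ X j) → (∀ j ∈ A, ∀ k i, |(e j k i : ℝ)| ≤ X j) →
        ∃ j ∈ A, ∃ k, ∀ p : ℤ, c' * X j / ∏ i ∈ A, X i ^ (E * (r i + 1)) ≤
          |(q j k : ℝ) * z j + ∑ i, (e j k i : ℝ) * t j i - p| := by
  classical
  obtain ⟨R, hR⟩ : ∃ R : ℕ → ℝ, R = fun j => ((r j + 1 : ℕ) : ℝ) := ⟨_, rfl⟩
  have hR1 : ∀ j, 1 ≤ R j := fun j => by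
    rw [hR]
    show (1 : ℝ) ≤ ((r j + 1 : ℕ) : ℝ)
    push_cast
    linarith [Nat.cast_nonneg (α := ℝ) (r j)]
  have hR0 : ∀ j, 0 < R j := fun j => by linarith [hR1 j]
  obtain ⟨C, hC⟩ : ∃ C : ℝ, C = ∏ i ∈ A, R i ^ (E * (r i + 1)) := ⟨_, rfl⟩
  have hC0 : 0 < C := by
    rw [hC]
    exact Finset.prod_pos fun i _ => pow_pos (hR0 i) _
  refine ⟨c / (2 * C), by positivity, ?_⟩
  intro t X hX q e hv hqX heX
  have hX0 : ∀ j, 0 < X j := fun j => by linarith [hX j]
  by_contra hcon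
  push Not at hcon
  obtain ⟨D, hD⟩ : ∃ D : ℝ, D = ∏ i ∈ A, X i ^ (E * (r i + 1)) := ⟨_, rfl⟩
  have hD0 : 0 < D := by
    rw [hD]
    exact Finset.prod_pos fun i _ => pow_pos (hX0 i) _
  rw [← hD] at hcon
  -- the combinations
  have key : ∀ j, ∃ (M : ℕ) (P : ℤ), 0 < M ∧ (j ∈ A → (M : ℝ) ≤ (R j * X j) ^ (r j + 1) ∧
      |(M : ℝ) * z j - P| ≤ R j * ((R j * X j) ^ (r j) * (c / (2 * C) * X j / D))) := by
    intro j
    by_cases hj : j ∈ A
    · have hcj := hcon j hj
      choose p hp using hcj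
      obtain ⟨l, hl0, hl, hlb⟩ := Pool.Agent.H267.OZ.exists_comb (X j) (hX j) (e j) (heX j hj)
      have hRj : ((r j + 1 : ℕ) : ℝ) = R j := by rw [hR]
      rw [hRj] at hlb
      obtain ⟨N, hN⟩ : ∃ N : ℤ, N = ∑ k, l k * q j k := ⟨_, rfl⟩
      have hN0 : N ≠ 0 := by
        intro hcon
        apply hl0
        have hv' := hv j hj
        rw [Fintype.linearIndependent_iff] at hv'
        funext k
        refine hv' l ?_ k
        refine Prod.ext ?_ ?_
        · rw [Prod.fst_sum]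
          simp only [Prod.smul_fst, smul_eq_mul, Prod.fst_zero]
          rw [← hN]
          exact hcon
        · rw [Prod.snd_sum]
          funext i
          rw [Finset.sum_apply]
          simp only [Prod.smul_snd, Pi.smul_apply, smul_eq_mul, Prod.snd_zero, Pi.zero_apply]
          exact hl i
      have hNb : |(N : ℝ)| ≤ (R j * X j) ^ (r j + 1) := by
        rw [hN]
        push_cast
        calc |∑ k, (l k : ℝ) * (q j k : ℝ)| ≤ ∑ k, |(l k : ℝ) * (q j k : ℝ)| :=
              Finset.abs_sum_le_sum_abs _ _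
          _ ≤ ∑ _k : Fin (r j + 1), (R j * X j) ^ (r j) * X j := by
              refine Finset.sum_le_sum fun k _ => ?_
              rw [abs_mul]
              have h1 := hqX j hj k
              have h2 := hlb k
              have h3 := hR0 j
              have h4 := hX0 j
              gcongr
          _ = (R j * X j) ^ (r j + 1) := by
              rw [Finset.sum_const, Finset.card_univ, Fintype.card_fin, nsmul_eq_mul, hRj]
              ring
      have hsum : (N : ℝ) * z j - ((∑ k, l k * p k : ℤ) : ℝ) =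
          ∑ k, (l k : ℝ) * ((q j k : ℝ) * z j + ∑ i, (e j k i : ℝ) * t j i - p k) := by
        have h1 : ∑ k, (l k : ℝ) * ∑ i, (e j k i : ℝ) * t j i = 0 := by
          simp only [Finset.mul_sum]
          rw [Finset.sum_comm]
          refine Finset.sum_eq_zero fun i _ => ?_
          have h2 : ∑ k, (l k : ℝ) * ((e j k i : ℝ) * t j i) =
              (∑ k, (l k : ℝ) * (e j k i : ℝ)) * t j i := by
            rw [Finset.sum_mul]
            exact Finset.sum_congr rfl fun k _ => by ring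
          rw [h2]
          have h4 : ∑ k, (l k : ℝ) * (e j k i : ℝ) = 0 := by exact_mod_cast hl i
          rw [h4, zero_mul]
        have h2 : ∑ k, (l k : ℝ) * ((q j k : ℝ) * z j + ∑ i, (e j k i : ℝ) * t j i - p k) =
            ∑ k, (l k : ℝ) * (q j k : ℝ) * z j + ∑ k, (l k : ℝ) * ∑ i, (e j k i : ℝ) * t j i -
              ∑ k, (l k : ℝ) * (p k : ℝ) := by
          rw [← Finset.sum_add_distrib, ← Finset.sum_sub_distrib]
          exact Finset.sum_congr rfl fun k _ => by ring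
        rw [h2, h1, hN, ← Finset.sum_mul]
        push_cast
        ring
      have hB0 : 0 < c / (2 * C) * X j / D := by
        have := hX0 j
        positivity
      have hup : |(N : ℝ) * z j - ((∑ k, l k * p k : ℤ) : ℝ)| ≤
          R j * ((R j * X j) ^ (r j) * (c / (2 * C) * X j / D)) := by
        rw [hsum]
        calc |∑ k, (l k : ℝ) * ((q j k : ℝ) * z j + ∑ i, (e j k i : ℝ) * t j i - p k)|
            ≤ ∑ k, |(l k : ℝ) * ((q j k : ℝ) * z j + ∑ i, (e j k i : ℝ) * t j i - p k)| :=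
              Finset.abs_sum_le_sum_abs _ _
          _ ≤ ∑ _k : Fin (r j + 1), (R j * X j) ^ (r j) * (c / (2 * C) * X j / D) := by
              refine Finset.sum_le_sum fun k _ => ?_
              rw [abs_mul]
              have h2 := hlb k
              have h3 := (hp k).le
              have h4 := hR0 j
              have h5 := hX0 j
              gcongr
          _ = _ := by
              rw [Finset.sum_const, Finset.card_univ, Fintype.card_fin, nsmul_eq_mul, hRj]
      have hNn : 0 < N.natAbs := Int.natAbs_pos.2 hN0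
      have hNr : ((N.natAbs : ℕ) : ℝ) = |(N : ℝ)| := by
        rw [← Int.cast_natCast, Int.natCast_natAbs, Int.cast_abs]
      rcases lt_or_gt_of_ne hN0 with hneg | hpos
      · refine ⟨N.natAbs, -(∑ k, l k * p k), hNn, fun _ => ⟨by rw [hNr]; exact hNb, ?_⟩⟩
        have h1 : ((N.natAbs : ℕ) : ℝ) = -(N : ℝ) := by
          rw [hNr, abs_of_neg (by exact_mod_cast hneg)]
        rw [h1]
        refine le_trans (le_of_eq ?_) hup
        rw [← abs_neg]
        congr 1
        push_cast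
        ring
      · refine ⟨N.natAbs, ∑ k, l k * p k, hNn, fun _ => ⟨by rw [hNr]; exact hNb, ?_⟩⟩
        have h1 : ((N.natAbs : ℕ) : ℝ) = (N : ℝ) := by
          rw [hNr, abs_of_pos (by exact_mod_cast hpos)]
        rw [h1]
        exact hup
    · exact ⟨1, 0, one_pos, fun h => absurd h hj⟩
  choose M P hM hMP using key
  obtain ⟨j, hj, h1⟩ := h.own M P hM
  obtain ⟨h2, h3⟩ := hMP j hj
  have hMj : (0 : ℝ) < M j := by exact_mod_cast hM j
  have h4 : |z j - (P j : ℝ) / M j| = |(M j : ℝ) * z j - P j| / M j := by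
    rw [eq_div_iff hMj.ne', ← abs_of_pos hMj, ← abs_mul, abs_of_pos hMj]
    congr 1
    field_simp
  rw [h4, div_le_div_iff₀ (pow_pos (Finset.prod_pos fun i _ => by exact_mod_cast hM i) _) hMj] at h1
  obtain ⟨F, rfl⟩ : ∃ F, E = F + 1 := ⟨E - 1, by omega⟩
  obtain ⟨V, hV⟩ : ∃ V : ℝ, V = |(M j : ℝ) * z j - P j| := ⟨_, rfl⟩
  rw [← hV] at h1 h3
  have hV0 : 0 ≤ V := by rw [hV]; exact abs_nonneg _
  -- `c M_j ≤ V (∏ M)^(F+1)`, hence `c ≤ V M_j ^ F (∏' M)^(F+1)`
  have h5 : c ≤ V * ((M j : ℝ) ^ F * (∏ i ∈ A.erase j, (M i : ℝ)) ^ (F + 1)) := by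
    have h6 : c * (M j : ℝ) ≤ (V * ((M j : ℝ) ^ F * (∏ i ∈ A.erase j, (M i : ℝ)) ^ (F + 1))) *
        (M j : ℝ) := by
      refine h1.trans (le_of_eq ?_)
      rw [← Finset.mul_prod_erase A _ hj]
      ring
    exact le_of_mul_le_mul_right h6 hMj
  obtain ⟨U, hU⟩ : ∃ U : ℕ → ℝ, U = fun i => (R i * X i) ^ (r i + 1) := ⟨_, rfl⟩
  have hU0 : ∀ i, 0 < U i := fun i => by
    rw [hU]
    exact pow_pos (mul_pos (hR0 i) (hX0 i)) _
  have h7 : (∏ i ∈ A.erase j, (M i : ℝ)) ≤ ∏ i ∈ A.erase j, U i := by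
    refine Finset.prod_le_prod (fun i _ => by positivity) fun i hi => ?_
    rw [hU]
    exact (hMP i (Finset.mem_of_mem_erase hi)).1
  have h8 : (M j : ℝ) ≤ U j := by
    rw [hU]
    exact h2
  have h9 : 0 ≤ ∏ i ∈ A.erase j, (M i : ℝ) := Finset.prod_nonneg fun i _ => by positivity
  have h10 : c ≤ V * (U j ^ F * (∏ i ∈ A.erase j, U i) ^ (F + 1)) := by
    refine h5.trans ?_
    have h9' : 0 ≤ U j ^ F := pow_nonneg (hU0 j).le F
    gcongr
  have h11 : c * U j ≤ V * (∏ i ∈ A, U i) ^ (F + 1) := by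
    rw [← Finset.mul_prod_erase A U hj]
    calc c * U j ≤ V * (U j ^ F * (∏ i ∈ A.erase j, U i) ^ (F + 1)) * U j :=
          mul_le_mul_of_nonneg_right h10 (hU0 j).le
      _ = _ := by ring
  have h12 : (∏ i ∈ A, U i) ^ (F + 1) = C * D := by
    rw [hC, hD, ← Finset.prod_mul_distrib, ← Finset.prod_pow]
    refine Finset.prod_congr rfl fun i _ => ?_
    rw [hU]
    show ((R i * X i) ^ (r i + 1)) ^ (F + 1) = _
    rw [← mul_pow, ← pow_mul, mul_comm (r i + 1)]
  rw [h12] at h11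
  have h13 : V * X j ≤ U j * (c / (2 * C) * X j / D) := by
    have h14 : V * X j ≤ (R j * ((R j * X j) ^ (r j) * (c / (2 * C) * X j / D))) * X j :=
      mul_le_mul_of_nonneg_right h3 (hX0 j).le
    refine h14.trans (le_of_eq ?_)
    rw [hU]
    ring
  have h15 : c * U j * X j ≤ U j * (c / 2) * X j := by
    calc c * U j * X j ≤ V * (C * D) * X j := mul_le_mul_of_nonneg_right h11 (hX0 j).le
      _ = (V * X j) * (C * D) := by ring
      _ ≤ (U j * (c / (2 * C) * X j / D)) * (C * D) :=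
          mul_le_mul_of_nonneg_right h13 (by positivity)
      _ = _ := by field_simp
  have h16 : 0 < U j * X j := mul_pos (hU0 j) (hX0 j)
  nlinarith

end Pool.Agent.H218.ZW
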