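import Pool.Agent.H218.ZW.Own
import Pool.Agent.V1139.DC.UnifDigits
import Pool.Agent.V1139.DC.Exp

/-!
# Near algebraic relations and digits, for one of several numbers with a simultaneous measure
-/

set_option autoImplicit false

namespace Pool.Agent.H218.ZW

open Finset Polynomial

/-- `ξ` is irrational and a root of a nonzero integer polynomial of degree at most `max n 2` -/
def IrrAlg (n : ℕ) (ξ : ℂ) : Prop :=
  (¬ ∃ r : ℚ, ξ = r) ∧ ∃ G : ℤ[X], G ≠ 0 ∧ G.natDegree ≤ max n 2 ∧ aeval ξ G = 0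

/-- the integer polynomials of degree at most `n` and height at most `H` which are smaller than `ε` at
`z` have a common irrational zero -/
def OneZero (n : ℕ) (H ε z : ℝ) : Prop :=
  ∃ ξ : ℂ, IrrAlg n ξ ∧ ∀ Q : ℤ[X], Q.natDegree ≤ n → (∀ i, |(Q.coeff i : ℝ)| ≤ H) →
    |aeval z Q| < ε → aeval ξ Q = 0

/-- the `i`-th digit of `x` after the point in base `b` -/
noncomputable def digit (b : ℕ) (x : ℝ) (i : ℕ) : ℤ := ⌊x * (b : ℝ) ^ i⌋ % (b : ℤ)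

/-- The terms `s_1, …, s_L` satisfy the linear recurrence
`s_(i+m) = c_0 s_i + … + c_(m-1) s_(i+m-1)` for `1 ≤ i ≤ L - m`. -/
def Recurrence (s : ℕ → ℤ) (c : ℕ → ℚ) (L m : ℕ) : Prop :=
  ∀ i : ℕ, 1 ≤ i → i + m ≤ L → (s (i + m) : ℚ) = ∑ j ∈ range m, c j * (s (i + j) : ℚ)

/-- the linear complexity of the first `L` digits of `x` in base `b` -/
noncomputable def complexity (b : ℕ) (x : ℝ) (L : ℕ) : ℕ :=
  sInf {m | ∃ c : ℕ → ℚ, Recurrence (digit b x) c L m}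

/-- `x` has linear complexity less than `ν Λ / log b` at the scale `Λ` in some base `b` which is not
too large, for some number `L ≥ Λ / log b` of digits -/
def Small (ν K Λ x : ℝ) : Prop :=
  ∃ b L : ℕ, 2 ≤ b ∧ K * Real.log b ≤ Λ ∧ Λ ≤ L * Real.log b ∧
    complexity b x L * Real.log b < ν * Λ

/-- one irrational algebraic number `ξ` such that `P(ξ)` is rational for all the integer polynomials
`P` of degree at most `n` and height at most `exp (δ Λ)` such that the digits of some `P(z) / D`,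
`1 ≤ D ≤ exp (δ Λ)`, have small linear complexity at the scale `Λ`; for the polynomials `A X ^ k + B`
the exponents `k` are divisible by `k₀` -/
def OneValue (n : ℕ) (ν K δ Λ z : ℝ) : Prop :=
  ∃ (ξ : ℂ) (k₀ : ℕ), IrrAlg n ξ ∧ 2 ≤ k₀ ∧
    (∀ (P : ℤ[X]) (D : ℕ), P.natDegree ≤ n → 1 ≤ D → (D : ℝ) ≤ Real.exp (δ * Λ) →
      (∀ i, |(P.coeff i : ℝ)| ≤ Real.exp (δ * Λ)) → Small ν K Λ (aeval z P / D) →
      ∃ r : ℚ, aeval ξ P = r) ∧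
    (∀ k : ℕ, 1 ≤ k → k ≤ n → ∀ (A B : ℤ) (D : ℕ), A ≠ 0 → 1 ≤ D →
      |(A : ℝ)| ≤ Real.exp (δ * Λ) → |(B : ℝ)| ≤ Real.exp (δ * Λ) →
      (D : ℝ) ≤ Real.exp (δ * Λ) → Small ν K Λ ((A * z ^ k + B) / D) → k₀ ∣ k)

lemma oneZero_of_tame (n : ℕ) (H ε ε' z : ℝ) (hε : ε ≤ ε')
    (h : Pool.Agent.V1139.DC.Tame n (((n : ℝ) + 1) * H) ε' z) : OneZero n H ε z := by
  obtain ⟨ξ, hξ1, hξ2⟩ := h
  refine ⟨ξ, hξ1, fun Q hQn hQH hQ => ?_⟩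
  rcases eq_or_ne Q 0 with h0 | h0
  · rw [h0, map_zero]
  · exact hξ2 Q ⟨h0, hQn, Pool.Agent.V1139.DC.MM_le Q n hQn H hQH, hQ.le.trans hε⟩

lemma oneValue_of_absorbs (n : ℕ) (ν K δ Λ z : ℝ)
    (h : ∃ ξ : ℂ, Pool.Agent.V1139.DC.Absorbs z n ν K δ Λ ξ) : OneValue n ν K δ Λ z := by
  obtain ⟨ξ, hξ⟩ := h
  obtain ⟨k₀, hk₀, hk⟩ := Pool.Agent.V1139.DC.powers_small z n ν K δ Λ ξ hξ
  exact ⟨ξ, k₀, ⟨hξ.1, hξ.2.1⟩, hk₀,
    fun P D h1 h2 h3 h4 h5 => hξ.2.2 P D h1 h2 h3 h4 h5,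
    fun k h1 h2 A B D h3 h4 h5 h6 h7 h8 => hk k h1 h2 A B D h3 h4 h5 h6 h7 h8⟩

lemma one_le_ncard {A : Finset ℕ} {p : ℕ → Prop} (h : 1 ≤ Set.ncard {j : ℕ | j ∈ A ∧ p j}) :
    ∃ j ∈ A, p j := by
  have hne : {j : ℕ | j ∈ A ∧ p j}.Nonempty := by
    rw [Set.nonempty_iff_ne_empty]
    intro h0
    rw [h0, Set.ncard_empty] at h
    omega
  obtain ⟨j, hj1, hj2⟩ := hne
  exact ⟨j, hj1, hj2⟩

lemma ncard_of_exists {A : Finset ℕ} {p : ℕ → Prop} (h : ∃ j ∈ A, p j) :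
    1 ≤ Set.ncard {j : ℕ | j ∈ A ∧ p j} := by
  obtain ⟨j, hj1, hj2⟩ := h
  have hfin : {j : ℕ | j ∈ A ∧ p j}.Finite := A.finite_toSet.subset fun j hj => hj.1
  exact Nat.succ_le_of_lt ((Set.ncard_pos hfin).2 ⟨j, hj1, hj2⟩)

/-- the measure in the form used by the engine -/
lemma Meas.ncard {A : Finset ℕ} {z : ℕ → ℝ} {F : ℕ} {c : ℝ} (h : Meas A z (F + 1) c) (q : ℕ)
    (hq : 1 ≤ q) : 1 ≤ Set.ncard {j : ℕ | j ∈ A ∧
      ∀ p : ℤ, c * (q : ℝ) ^ (-(F : ℝ)) ≤ |(q : ℝ) * z j - p|} := by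
  apply ncard_of_exists
  by_contra hcon
  push Not at hcon
  choose! p hp using hcon
  obtain ⟨j, hj, hj2⟩ := h p q hq
  have hq0 : (0 : ℝ) < q := by exact_mod_cast hq
  have h3 := hp j hj
  have h4 : |(q : ℝ) * z j - p j| = q * |z j - (p j : ℝ) / q| := by
    rw [← abs_of_pos hq0, ← abs_mul, abs_of_pos hq0]
    congr 1
    field_simp
  have h5 : c * (q : ℝ) ^ (-(F : ℝ)) = q * (c / (q : ℝ) ^ (F + 1)) := by
    rw [Real.rpow_neg hq0.le, Real.rpow_natCast, pow_succ]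
    field_simp
  rw [h4, h5] at h3
  have h6 := mul_le_mul_of_nonneg_left hj2 hq0.le
  exact absurd h3 (not_lt.2 h6)

/-- near algebraic relations -/
theorem near (A : Finset ℕ) (z : ℕ → ℝ) (E : ℕ) (hE : 1 ≤ E) (c : ℝ) (hc : 0 < c)
    (h : Meas A z E c) (m : ℕ) (hm : m = A.card * E + 2) (n : ℕ) (hn : 1 ≤ n) :
    ∃ c : ℝ, 0 < c ∧ ∀ H : ℝ, 1 ≤ H →
      ∃ j ∈ A, OneZero n H (c * H ^ (-((m : ℝ) * n - 1))) (z j) := by
  obtain ⟨F, rfl⟩ : ∃ F, E = F + 1 := ⟨E - 1, by omega⟩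
  have hn1 : (1 : ℝ) ≤ n := by exact_mod_cast hn
  obtain ⟨c', hc', h'⟩ := Pool.Agent.V1139.DC.family_tame z A 1 F c (Nat.cast_nonneg F) hc 0
    (fun q _ hq => h.ncard q hq) n hn
  obtain ⟨s, hs⟩ : ∃ s : ℝ, s = (n : ℝ) + 1 := ⟨_, rfl⟩
  have hs1 : 1 ≤ s := by rw [hs]; linarith
  have hs0 : 0 < s := by linarith
  have hmE : (n : ℝ) * (A.card * (1 + (F : ℝ)) + 2) - 1 = (m : ℝ) * n - 1 := by
    rw [hm]; push_cast; ring
  rw [hmE] at h'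
  refine ⟨c' / 2 * s ^ (-((m : ℝ) * n - 1)), by positivity, fun H hH => ?_⟩
  have hH0 : 0 < H := by linarith
  have hp : 0 < (s * H) ^ (-((m : ℝ) * n - 1)) := by positivity
  obtain ⟨j, hjA, hj⟩ := one_le_ncard (h' (s * H) (one_le_mul_of_one_le_of_one_le hs1 hH)
    (c' / 2 * (s * H) ^ (-((m : ℝ) * n - 1))) (by nlinarith))
  refine ⟨j, hjA, oneZero_of_tame n H _ _ (z j) ?_ (by rw [← hs]; exact hj)⟩
  rw [Real.mul_rpow hs0.le hH0.le]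
  apply le_of_eq
  ring

/-- digits -/
theorem digits (A : Finset ℕ) (z : ℕ → ℝ) (E : ℕ) (hE : 1 ≤ E) (c : ℝ) (hc : 0 < c)
    (h : Meas A z E c) (m : ℕ) (hm : m = A.card * E + 2) (n : ℕ) (hn : 1 ≤ n) (ε : ℝ) (hε : 0 < ε) :
    ∃ K δ : ℝ, 0 < K ∧ 0 < δ ∧ ∀ Λ : ℝ,
      ∃ j ∈ A, OneValue n (1 / ((m : ℝ) * n) - ε) K δ Λ (z j) := by
  obtain ⟨F, rfl⟩ : ∃ F, E = F + 1 := ⟨E - 1, by omega⟩
  obtain ⟨K, δ, hK, hδ, h'⟩ := Pool.Agent.V1139.DC.family_digits z A 1 F c (Nat.cast_nonneg F) hc 0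
    (fun q _ hq => h.ncard q hq) n hn ε hε
  refine ⟨K, δ, hK, hδ, fun Λ => ?_⟩
  obtain ⟨j, hjA, hj⟩ := one_le_ncard (h' Λ)
  refine ⟨j, hjA, oneValue_of_absorbs n _ K δ Λ (z j) ?_⟩
  have hmE : (n : ℝ) * (A.card * (1 + (F : ℝ)) + 2) = (m : ℝ) * n := by
    rw [hm]; push_cast; ring
  rw [hmE] at hj
  exact hj

end Pool.Agent.H218.ZW
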